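import Pool.Agent.H92.SG.Stmts

/-!
# Boundary connected sum of braided surfaces
-/

set_option autoImplicit false

namespace Pool.Agent.H63.SG

open Pool.Agent.H92.SG

theorem perm_sh (x : B) : perm (sh x) 0 = 0 ∧ ∀ i, perm (sh x) (i + 1) = perm x i + 1 := by
  induction x using B_induction with
  | h1 => simp
  | hs k =>
    rw [sh_σ, perm_σ, perm_σ]
    refine ⟨Equiv.swap_apply_of_ne_of_ne (by omega) (by omega), fun i => ?_⟩
    simp only [Equiv.swap_apply_def]
    split_ifs <;> omega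
  | hm x y hx hy =>
    rw [map_mul, map_mul, map_mul]
    refine ⟨?_, fun i => ?_⟩
    · rw [Equiv.Perm.mul_apply, hy.1, hx.1]
    · rw [Equiv.Perm.mul_apply, Equiv.Perm.mul_apply, hy.2, hx.2]
  | hi x hx =>
    rw [map_inv, map_inv, map_inv]
    refine ⟨?_, fun i => ?_⟩
    · rw [Equiv.Perm.inv_eq_iff_eq, hx.1]
    · rw [Equiv.Perm.inv_eq_iff_eq, hx.2, Equiv.Perm.inv_def, Equiv.apply_symm_apply]

theorem perm_sh_iter (k : ℕ) (x : B) (i : ℕ) : perm ((sh^[k]) x) (k + i) = k + perm x i := by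
  induction k generalizing i with
  | zero => simp
  | succ k ih =>
    rw [Function.iterate_succ_apply']
    have h := (perm_sh ((sh^[k]) x)).2 (k + i)
    rw [ih] at h
    have e1 : k + 1 + i = k + i + 1 := by omega
    have e2 : k + 1 + perm x i = k + perm x i + 1 := by omega
    rw [e1, e2, h]

theorem sh_mem {n : ℕ} {x : B} (hx : x ∈ Bn n) : sh x ∈ Bn (n + 1) := by
  refine Bn_induction (p := fun x => sh x ∈ Bn (n + 1)) ?_ ?_ ?_ ?_ hx
  · rw [map_one]; exact one_mem _
  · intro i h; rw [sh_σ]; exact σ_mem_Bn (by omega)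
  · intro x _ y _ h1 h2; rw [map_mul]; exact mul_mem h1 h2
  · intro x _ h; rw [map_inv]; exact inv_mem h

theorem sh_band {n : ℕ} {x : B} (hx : IsBand n x) : IsBand (n + 1) (sh x) := by
  obtain ⟨w, hw, i, hi, h⟩ := hx
  refine ⟨sh w, sh_mem hw, i + 1, by omega, ?_⟩
  rcases h with rfl | rfl
  · left; rw [map_mul, map_mul, map_inv, sh_σ]
  · right; rw [map_mul, map_mul, map_inv, map_inv, sh_σ]

theorem sh_iter_mem (k : ℕ) {n : ℕ} {x : B} (hx : x ∈ Bn n) : (sh^[k]) x ∈ Bn (n + k) := by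
  induction k with
  | zero => exact hx
  | succ k ih =>
    rw [Function.iterate_succ_apply']
    exact sh_mem ih

theorem sh_iter_band (k : ℕ) {n : ℕ} {x : B} (hx : IsBand n x) : IsBand (n + k) ((sh^[k]) x) := by
  induction k with
  | zero => exact hx
  | succ k ih =>
    rw [Function.iterate_succ_apply']
    exact sh_band ih

theorem band_mono {m n : ℕ} (h : m ≤ n) {x : B} (hx : IsBand m x) : IsBand n x := by
  obtain ⟨w, hw, i, hi, e⟩ := hx
  exact ⟨w, Bn_mono h hw, i, by omega, e⟩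

theorem band_conj {n : ℕ} {x g : B} (hg : g ∈ Bn n) (hx : IsBand n x) :
    IsBand n (g * x * g⁻¹) := by
  obtain ⟨w, hw, i, hi, e⟩ := hx
  refine ⟨g * w, mul_mem hg hw, i, hi, ?_⟩
  rcases e with rfl | rfl
  · left; group
  · right; group

theorem prod_conj (g : B) (l : List B) : (l.map fun x => g * x * g⁻¹).prod = g * l.prod * g⁻¹ := by
  induction l with
  | nil => simp
  | cons a l ih => rw [List.map_cons, List.prod_cons, ih, List.prod_cons]; group

theorem sh_iter_mul (k : ℕ) (x y : B) : (sh^[k]) (x * y) = (sh^[k]) x * (sh^[k]) y := by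
  induction k with
  | zero => rfl
  | succ k ih => rw [Function.iterate_succ_apply', ih, map_mul, Function.iterate_succ_apply',
      Function.iterate_succ_apply']

theorem sh_iter_one (k : ℕ) : (sh^[k]) (1 : B) = 1 := by
  induction k with
  | zero => rfl
  | succ k ih => rw [Function.iterate_succ_apply', ih, map_one]

theorem prod_sh (k : ℕ) (l : List B) : (l.map fun x => (sh^[k]) x).prod = (sh^[k]) l.prod := by
  induction l with
  | nil => simp only [List.map_nil, List.prod_nil, sh_iter_one]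
  | cons a l ih => rw [List.map_cons, List.prod_cons, ih, List.prod_cons, sh_iter_mul]

theorem SSUM_thm (hTau : TauStmt) (_hPerm : PermStmt) : SurfSumStmt := by
  intro n₁ n₂ β₁ β₂ e₁ e₂ hβ₁ _ h₁ h₂
  obtain ⟨b₁, l₁, hl₁, hp₁, hlen₁, hc₁⟩ := h₁
  obtain ⟨b₂, l₂, hl₂, hp₂, hlen₂, hc₂⟩ := h₂
  obtain ⟨τ, hτ, hcomm, hfix, hmove⟩ := hTau (n₁ + 1) b₁ (n₂ + b₂)
  have hN : n₁ + n₂ + 1 + (b₁ + b₂) = n₁ + 1 + (n₂ + b₂) + b₁ := by omega
  refine ⟨b₁ + b₂, (l₁.map fun x => τ * x * τ⁻¹) ++ l₂.map fun x => (sh^[n₁]) x, ?_, ?_, ?_, ?_⟩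
  · intro x hx
    rw [List.mem_append, List.mem_map, List.mem_map] at hx
    rw [hN]
    rcases hx with ⟨y, hy, rfl⟩ | ⟨y, hy, rfl⟩
    · exact band_conj hτ (band_mono (by omega) (hl₁ y hy))
    · exact band_mono (by omega) (sh_iter_band n₁ (hl₂ y hy))
  · rw [List.prod_append, prod_conj, prod_sh, hp₁, hp₂, hcomm β₁ hβ₁, mul_inv_cancel_right]
  · rw [List.length_append, List.length_map, List.length_map]
    omega
  · intro S hS0 hS i hi
    have h1 : ∀ i < n₁ + 1 + b₁, perm τ i ∈ S := by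
      refine hc₁ {i | perm τ i ∈ S} ?_ ?_
      · rw [Set.mem_ofPred_eq, hfix 0 (by omega)]; exact hS0
      · intro x hx i hi
        rw [Set.mem_ofPred_eq] at hi ⊢
        have h := hS (τ * x * τ⁻¹)
          (List.mem_append_left _ (List.mem_map.2 ⟨x, hx, rfl⟩)) _ hi
        rw [map_mul, map_mul, map_inv, Equiv.Perm.mul_apply, Equiv.Perm.mul_apply,
          Equiv.Perm.inv_def, Equiv.symm_apply_apply] at h
        exact h
    have h2 : ∀ i < n₂ + 1 + b₂, n₁ + i ∈ S := by
      refine hc₂ {i | n₁ + i ∈ S} ?_ ?_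
      · rw [Set.mem_ofPred_eq]
        have h := h1 n₁ (by omega)
        rw [hfix n₁ (by omega)] at h
        exact h
      · intro x hx i hi
        rw [Set.mem_ofPred_eq] at hi ⊢
        have h := hS ((sh^[n₁]) x)
          (List.mem_append_right _ (List.mem_map.2 ⟨x, hx, rfl⟩)) _ hi
        rw [perm_sh_iter] at h
        exact h
    by_cases c1 : i < n₁ + 1
    · have h := h1 i (by omega)
      rw [hfix i c1] at h
      exact h
    · by_cases c2 : i < n₁ + n₂ + 1 + b₂
      · have h := h2 (i - n₁) (by omega)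
        rwa [Nat.add_sub_cancel' (by omega)] at h
      · have h := h1 (n₁ + 1 + (i - (n₁ + n₂ + 1 + b₂))) (by omega)
        rw [hmove _ (by omega)] at h
        have e : n₁ + 1 + (n₂ + b₂) + (i - (n₁ + n₂ + 1 + b₂)) = i := by omega
        rwa [e] at h

end Pool.Agent.H63.SG
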